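import Pool.Agent.MP_757d88_an.WZ

/-! For all large n the class of normalised univalent functions in the exterior disc contains a
function whose n-th coefficient has modulus at least n ^ (0.2454 - 1). -/

set_option autoImplicit false

namespace Pool.Agent.Results.MP_757d88_an.GrowthExponent

theorem result : ∃ N : ℕ, ∀ n : ℕ, N ≤ n → ∃ (f : ℂ → ℂ) (b : ℕ → ℂ),
    (DifferentiableOn ℂ f {z | 1 < ‖z‖} ∧ Set.InjOn f {z | 1 < ‖z‖} ∧
      ∀ z : ℂ, 1 < ‖z‖ → HasSum (fun m : ℕ => b m / z ^ m) (f z - z)) ∧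
    (n : ℝ) ^ ((1227 : ℝ) / 5000 - 1) ≤ ‖b n‖ :=
  Pool.Agent.MP_757d88_an.W.growth

end Pool.Agent.Results.MP_757d88_an.GrowthExponent
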